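import Pool.Agent.H69.GN.Stm2

set_option autoImplicit false

namespace Pool.Agent.H13.GN

open Finset Pool.Agent.H69.GN

theorem parent_unique {V : Type} {G : SimpleGraph V} (hG : G.IsAcyclic) {u v w w' : V}
    (hr : G.Reachable u v) (h : G.Adj v w) (h' : G.Adj v w') (hd : G.dist u w < G.dist u v)
    (hd' : G.dist u w' < G.dist u v) : w = w' := by
  classical
  obtain ⟨p, hp, hpl⟩ := hr.exists_path_of_dist
  have key : ∀ x, G.Adj v x → G.dist u x < G.dist u v → x = p.penultimate := by
    intro x hx hdx
    apply hG.eq_penultimate_of_adj_end hp hx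
    by_contra hxp
    obtain ⟨q, hq, hql⟩ := (hr.trans hx.reachable).exists_path_of_dist
    have hv : v ∈ q.support :=
      hG.mem_support_of_ne_mem_support_of_adj_of_isPath hq hp hx.symm hxp
    have h1 := SimpleGraph.dist_le (q.takeUntil v hv)
    have h2 := q.length_takeUntil_le_length hv
    omega
  rw [key w h hd, key w' h' hd']

theorem t_ORD : S_ORD := by
  classical
  intro V _ G hG
  let r : V → V := fun v => (G.connectedComponentMk v).out
  have hr : ∀ v, G.Reachable (r v) v := fun v =>
    SimpleGraph.ConnectedComponent.exact (Quot.out_eq (G.connectedComponentMk v))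
  have hradj : ∀ v w, G.Adj v w → r v = r w := fun v w h => by
    change (G.connectedComponentMk v).out = (G.connectedComponentMk w).out
    rw [SimpleGraph.ConnectedComponent.sound h.reachable]
  let e0 : V ≃ Fin (Fintype.card V) := Fintype.equivFin V
  let d : Fin (Fintype.card V) → ℕᵒᵈ := fun i =>
    OrderDual.toDual (G.dist (r (e0.symm i)) (e0.symm i))
  let σ := Tuple.sort d
  have hσ : Monotone (d ∘ σ) := Tuple.monotone_sort d
  let e : V ≃ Fin (Fintype.card V) := e0.trans σ.symm
  have hes : ∀ i, e.symm i = e0.symm (σ i) := fun i => rfl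
  have hmono : ∀ i j, i ≤ j →
      G.dist (r (e.symm j)) (e.symm j) ≤ G.dist (r (e.symm i)) (e.symm i) := fun i j h => hσ h
  have hlt : ∀ i j, i < j → G.Adj (e.symm i) (e.symm j) →
      G.dist (r (e.symm i)) (e.symm j) < G.dist (r (e.symm i)) (e.symm i) := by
    intro i j hij hadj
    have h1 := hmono i j hij.le
    rw [← hradj _ _ hadj] at h1
    have h2 := hG.dist_ne_of_adj hadj (hr (e.symm i))
    omega
  have huniq : ∀ i j j', i < j → i < j' → G.Adj (e.symm i) (e.symm j) →
      G.Adj (e.symm i) (e.symm j') → j = j' := by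
    intro i j j' h1 h2 h3 h4
    exact e.symm.injective (parent_unique hG (hr (e.symm i)) h3 h4 (hlt i j h1 h3) (hlt i j' h2 h4))
  refine ⟨Fintype.card V, e, fun i => if h : ∃ j, i < j ∧ G.Adj (e.symm i) (e.symm j) then
    h.choose.castSucc else Fin.last _, fun i => ?_, fun i j hij => ?_⟩
  · dsimp only
    split_ifs with h
    · exact Fin.castSucc_lt_castSucc_iff.2 h.choose_spec.1
    · exact Fin.castSucc_lt_last i
  · dsimp only
    constructor
    · intro hadj
      have h : ∃ j, i < j ∧ G.Adj (e.symm i) (e.symm j) := ⟨j, hij, hadj⟩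
      rw [dif_pos h, huniq i _ j h.choose_spec.1 hij h.choose_spec.2 hadj]
    · intro hp
      split_ifs at hp with h
      · have := Fin.castSucc_injective _ hp
        rw [← this]
        exact h.choose_spec.2
      · exact absurd hp.symm (Fin.castSucc_lt_last j).ne

end Pool.Agent.H13.GN
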